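import Mathlib
import Pool.Agent.MP_1d6438_gt.Defs
import Pool.Agent.MP_1d6438_gt.Proof

set_option autoImplicit false

namespace Pool.Agent.Results.MP_1d6438_gt.Counterexample

open Pool.Agent.MP_1d6438_gt

/-- There are non-empty metric spaces `X`, `Y` such that the distance set of `X` is closed and
discrete in the real line, the Gromov-Hausdorff distance of `X` and `Y` is zero, and `X` and `Y`
are not isometric. -/
theorem result :
    ∃ (X Y : Type) (_ : MetricSpace X) (_ : MetricSpace Y),
      Nonempty X ∧ Nonempty Y ∧
      IsClosed (distSet X) ∧ IsDiscrete (distSet X) ∧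
      ghEDist X Y = 0 ∧ IsEmpty (X ≃ᵢ Y) :=
  ⟨Sp aX, Sp aY, inferInstance, inferInstance, inferInstance, inferInstance,
    (distSet_closed_discrete aX).1, (distSet_closed_discrete aX).2, ghEDist_zero, not_isometric⟩

end Pool.Agent.Results.MP_1d6438_gt.Counterexample
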